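import Pool.Agent.Helper273.GF.Main

/-!
# There is no grammatical family strictly between the context-free and the r.e. languages

We prove the conjecture on g-interpretations of grammar forms: if a grammar form generates under
g-interpretations all context-free languages and a non-context-free language, then it generates
all recursively enumerable languages (up to the empty word). In fact the family of every grammar
form either consists of context-free languages, or is the family of all r.e. languages.

Idea. Let `G₁` be a grammar (a g-interpretation of the form).
* The gaps of every sentential form of `G₁` carry a metric `d` which satisfies the four point
  conditions of Kalmanson on the cyclically ordered set of gaps; a rewriting step replaces the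
  metric by one which lets every Lipschitz function on the new gaps be extended to the old ones.
  Each pair of gaps also gets a formal word of length `d`, in letters and their iterated left and
  right adjoints, in an ordered monoid into which the derivability preorder embeds.
* If for some `K` all terminal words have a triangulation with chords of length at most `K`, then
  the formal words of length at most `K` are the nonterminals of a context-free grammar for
  `L(G₁)` (the adjoints are removed since the preorder embeds).
* Otherwise for every `N` some terminal word has a monotone map of its gaps onto `0, ..., N` which
  is 1-Lipschitz from `d` to the cyclic metric. Label the gaps by faces and the letters by two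
  free group elements (differences of heights along a fixed word): a relabelled grammar, whose
  rules are conservative for faces and for both free group products, generates exactly the words
  accepted by a finite control with two free group counters, and the Lipschitz maps allow long
  runs. Two free group counters suffice for checking the derivations of a type 0 grammar.
-/

namespace Pool.Agent.Results.MP_c20a26_lc.RECFGap

open Pool.Agent.Helper273.GF

/-- The RE-CF gap for g-interpretations of grammar forms. First part: for every
non-context-free grammar form `G`, if `L(CF) ⊊ L_g(G)` then `L_g(G) = L(RE)`. Second part: for
every grammar form `G` either `L_g(G) ⊆ L(CF)` or `L_g(G) = L(RE)`. Families are compared up to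
the empty word. -/
theorem result :
    (∀ G : Grammar, ¬ G.IsCF → (FamSub CFFamily (gFamily G) ∧ ¬ FamEq CFFamily (gFamily G)) →
      FamEq (gFamily G) REFamily) ∧
    (∀ G : Grammar, FamSub (gFamily G) CFFamily ∨ FamEq (gFamily G) REFamily) := by
  have h2 : ∀ G : Grammar, FamSub (gFamily G) CFFamily ∨ FamEq (gFamily G) REFamily := by
    intro G
    rcases dichotomy G with h | h
    · exact Or.inl h
    · refine Or.inr ⟨?_, ?_⟩
      · rintro L ⟨G₁, μ, _, rfl⟩
        exact ⟨_, ⟨G₁, rfl⟩, fun _ _ => Iff.rfl⟩
      · rintro L ⟨G₀, rfl⟩
        exact h G₀
  refine ⟨?_, h2⟩
  rintro G _ ⟨h3, h4⟩
  rcases h2 G with h | h
  · exact absurd ⟨h3, h⟩ h4
  · exact h

end Pool.Agent.Results.MP_c20a26_lc.RECFGap
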